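import Pool.Agent.Helper76.FT.GoalsC
import Pool.Agent.Helper32.FT.Newton1
import Pool.Agent.Helper52.FT.Comp

/-!
# FT-HOLO (MP_39e2b7_an): holomorphic dependence of a torus on its class
-/

set_option autoImplicit false

namespace Pool.Agent.Helper3.FT

open Complex Set Filter Topology Metric MeasureTheory
open Pool.Agent.Helper76.FT
open Pool.Agent.Helper32.FTNewton

/-! ### Parameter integrals -/

theorem sh_pint {F : ℝ → ℂ → ℝ → ℂ} {ρ : ℝ}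
    (hc : ContinuousOn (fun q : ℝ × ℂ × ℝ => F q.1 q.2.1 q.2.2)
      (Icc (0:ℝ) 1 ×ˢ (Str ρ ×ˢ Icc (0:ℝ) 1)))
    (hh : ∀ s ∈ Icc (0:ℝ) 1, ∀ t ∈ Icc (0:ℝ) 1, DifferentiableOn ℂ (fun z => F s z t) (Str ρ))
    (hp : ∀ s ∈ Icc (0:ℝ) 1, ∀ z ∈ Str ρ, ∀ t ∈ Icc (0:ℝ) 1, F s (z + 1) t = F s z t) :
    SH (fun z t => ∫ s in (0:ℝ)..1, F s z t) ρ := by
  have hIoc : Set.uIoc (0:ℝ) 1 ⊆ Icc (0:ℝ) 1 := by
    rw [uIoc_of_le zero_le_one]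
    exact Ioc_subset_Icc_self
  -- continuity in `s`
  have hcs : ∀ z ∈ Str ρ, ∀ t ∈ Icc (0:ℝ) 1, ContinuousOn (fun s => F s z t) (Icc (0:ℝ) 1) := by
    intro z hz t ht
    have h1 : ContinuousOn (fun s : ℝ => ((s, z, t) : ℝ × ℂ × ℝ)) (Icc (0:ℝ) 1) :=
      (continuous_id.prodMk (continuous_const.prodMk continuous_const)).continuousOn
    exact hc.comp h1 (fun s hs => ⟨hs, hz, ht⟩)
  have hmeas : ∀ z ∈ Str ρ, ∀ t ∈ Icc (0:ℝ) 1,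
      AEStronglyMeasurable (fun s => F s z t) (volume.restrict (Set.uIoc (0:ℝ) 1)) := by
    intro z hz t ht
    exact ((hcs z hz t ht).mono hIoc).aestronglyMeasurable measurableSet_uIoc
  -- local bound
  have hloc : ∀ z₀ ∈ Str ρ, ∃ r B : ℝ, 0 < r ∧ closedBall z₀ (2 * r) ⊆ Str ρ ∧
      ∀ s ∈ Icc (0:ℝ) 1, ∀ z ∈ closedBall z₀ (2 * r), ∀ t ∈ Icc (0:ℝ) 1, ‖F s z t‖ ≤ B := by
    intro z₀ hz₀
    obtain ⟨r, hr, hsub⟩ := Metric.isOpen_iff.1 (isOpen_str ρ) z₀ hz₀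
    have hsub' : closedBall z₀ (2 * (r / 4)) ⊆ Str ρ :=
      (closedBall_subset_ball (by linarith)).trans hsub
    have hK : IsCompact (Icc (0:ℝ) 1 ×ˢ (closedBall z₀ (2 * (r / 4)) ×ˢ Icc (0:ℝ) 1)) :=
      isCompact_Icc.prod ((isCompact_closedBall _ _).prod isCompact_Icc)
    obtain ⟨B, hB⟩ := hK.exists_bound_of_continuousOn
      (hc.mono (prod_mono subset_rfl (prod_mono hsub' subset_rfl)))
    exact ⟨r / 4, B, by linarith, hsub', fun s hs z hz t ht => hB (s, z, t) ⟨hs, hz, ht⟩⟩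
  refine ⟨fun t ht => ?_, ?_, ?_⟩
  · intro z₀ hz₀
    obtain ⟨r, B, hr, hsub, hB⟩ := hloc z₀ hz₀
    have hSH : SH (fun z s => F s z t) ρ := by
      refine ⟨fun s hs => hh s hs t ht, ?_, fun z hz s hs => hp s hs z hz t ht⟩
      have h1 : ContinuousOn (fun q : ℂ × ℝ => ((q.2, q.1, t) : ℝ × ℂ × ℝ))
          (Str ρ ×ˢ Icc (0:ℝ) 1) :=
        (continuous_snd.prodMk (continuous_fst.prodMk continuous_const)).continuousOn
      exact hc.comp h1 (fun q hq => ⟨hq.2, hq.1, ht⟩)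
    have hdz := (sh_dz hSH).cont
    have hd : HasDerivAt (fun z => ∫ s in (0:ℝ)..1, F s z t)
        (∫ s in (0:ℝ)..1, deriv (fun z => F s z t) z₀) z₀ := by
      refine (intervalIntegral.hasDerivAt_integral_of_dominated_loc_of_deriv_le
        (s := ball z₀ r) (bound := fun _ => B / r)
        (F := fun z s => F s z t) (F' := fun z s => deriv (fun z => F s z t) z)
        (ball_mem_nhds z₀ hr) ?_ ?_ ?_ ?_ ?_ ?_).2
      · filter_upwards [(isOpen_str ρ).mem_nhds hz₀] with z hz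
        exact hmeas z hz t ht
      · exact (ContinuousOn.intervalIntegrable_of_Icc zero_le_one (hcs z₀ hz₀ t ht))
      · have h1 : ContinuousOn (fun s : ℝ => ((z₀, s) : ℂ × ℝ)) (Icc (0:ℝ) 1) :=
          (continuous_const.prodMk continuous_id).continuousOn
        have h2 := hdz.comp h1 (fun s hs => ⟨hz₀, hs⟩)
        exact (h2.mono hIoc).aestronglyMeasurable measurableSet_uIoc
      · refine Eventually.of_forall (fun s hs z hz => ?_)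
        have hs' := hIoc hs
        have hcb : closedBall z r ⊆ closedBall z₀ (2 * r) := by
          refine closedBall_subset_closedBall' ?_
          have := mem_ball.1 hz
          linarith
        apply Complex.norm_deriv_le_of_forall_mem_sphere_norm_le hr
        · apply DifferentiableOn.diffContOnCl
          rw [closure_ball _ hr.ne']
          exact (hh s hs' t ht).mono (hcb.trans hsub)
        · intro x hx
          exact hB s hs' x (hcb (sphere_subset_closedBall hx)) t ht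
      · exact intervalIntegrable_const
      · refine Eventually.of_forall (fun s hs z hz => ?_)
        have hs' := hIoc hs
        have hz' : z ∈ Str ρ := hsub (closedBall_subset_closedBall (by linarith)
          (ball_subset_closedBall hz))
        exact ((hh s hs' t ht).differentiableAt ((isOpen_str ρ).mem_nhds hz')).hasDerivAt
    exact hd.differentiableAt.differentiableWithinAt
  · rintro ⟨z₀, t₀⟩ ⟨hz₀, ht₀⟩
    simp only at hz₀ ht₀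
    obtain ⟨r, B, hr, hsub, hB⟩ := hloc z₀ hz₀
    have hnear : ∀ᶠ q : ℂ × ℝ in 𝓝[Str ρ ×ˢ Icc (0:ℝ) 1] (z₀, t₀),
        q.1 ∈ closedBall z₀ (2 * r) ∧ q.2 ∈ Icc (0:ℝ) 1 := by
      have h1 : ∀ᶠ q : ℂ × ℝ in 𝓝 (z₀, t₀), q.1 ∈ closedBall z₀ (2 * r) :=
        (continuous_fst.tendsto (z₀, t₀)).eventually (closedBall_mem_nhds z₀ (by linarith))
      filter_upwards [mem_nhdsWithin_of_mem_nhds h1, self_mem_nhdsWithin] with q hq1 hq2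
      exact ⟨hq1, hq2.2⟩
    refine intervalIntegral.continuousWithinAt_of_dominated_interval
      (F := fun (q : ℂ × ℝ) s => F s q.1 q.2) (bound := fun _ => B) ?_ ?_ ?_ ?_
    · filter_upwards [hnear] with q hq
      exact hmeas q.1 (hsub hq.1) q.2 hq.2
    · filter_upwards [hnear] with q hq
      exact Eventually.of_forall (fun s hs => hB s (hIoc hs) q.1 hq.1 q.2 hq.2)
    · exact intervalIntegrable_const
    · refine Eventually.of_forall (fun s hs => ?_)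
      have h1 : ContinuousOn (fun q : ℂ × ℝ => ((s, q.1, q.2) : ℝ × ℂ × ℝ))
          (Str ρ ×ˢ Icc (0:ℝ) 1) :=
        (continuous_const.prodMk (continuous_fst.prodMk continuous_snd)).continuousOn
      have h2 := hc.comp h1 (fun q hq => ⟨hIoc hs, hq.1, hq.2⟩)
      exact h2 (z₀, t₀) ⟨hz₀, ht₀⟩
  · intro z hz t ht
    refine intervalIntegral.integral_congr (fun s hs => ?_)
    rw [uIcc_of_le zero_le_one] at hs
    exact hp s hs z hz t ht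

/-! ### The chord -/

section chord

variable {S : Sys} {ρ : ℝ} {w₀ w₁ : ℂ → ℝ → ℂ}

/-- segment between two velocity fields -/
noncomputable def sg (w₀ w₁ : ℂ → ℝ → ℂ) (s : ℝ) (z : ℂ) (t : ℝ) : ℂ :=
  w₀ z t + s * (w₁ z t - w₀ z t)

/-- density along the segment -/
noncomputable def kp (S : Sys) (w₀ w₁ : ℂ → ℝ → ℂ) (s : ℝ) (z : ℂ) (t : ℝ) : ℂ :=
  S.κ (z - t * sg w₀ w₁ s z t) (sg w₀ w₁ s z t)

theorem sg_cont (h0 : SH w₀ ρ) (h1 : SH w₁ ρ) :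
    ContinuousOn (fun q : ℝ × ℂ × ℝ => sg w₀ w₁ q.1 q.2.1 q.2.2)
      (Icc (0:ℝ) 1 ×ˢ (Str ρ ×ˢ Icc (0:ℝ) 1)) := by
  have e0 : ContinuousOn (fun q : ℝ × ℂ × ℝ => w₀ q.2.1 q.2.2)
      (Icc (0:ℝ) 1 ×ˢ (Str ρ ×ˢ Icc (0:ℝ) 1)) :=
    h0.cont.comp continuous_snd.continuousOn (fun q hq => hq.2)
  have e1 : ContinuousOn (fun q : ℝ × ℂ × ℝ => w₁ q.2.1 q.2.2)
      (Icc (0:ℝ) 1 ×ˢ (Str ρ ×ˢ Icc (0:ℝ) 1)) :=
    h1.cont.comp continuous_snd.continuousOn (fun q hq => hq.2)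
  have e2 : ContinuousOn (fun q : ℝ × ℂ × ℝ => (q.1 : ℂ))
      (Icc (0:ℝ) 1 ×ˢ (Str ρ ×ˢ Icc (0:ℝ) 1)) :=
    (Complex.continuous_ofReal.comp continuous_fst).continuousOn
  exact e0.add (e2.mul (e1.sub e0))

theorem sg_hol (h0 : SH w₀ ρ) (h1 : SH w₁ ρ) {s t : ℝ} (ht : t ∈ Icc (0:ℝ) 1) :
    DifferentiableOn ℂ (fun z => sg w₀ w₁ s z t) (Str ρ) :=
  (h0.hol t ht).add ((differentiableOn_const _).mul ((h1.hol t ht).sub (h0.hol t ht)))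

theorem sg_per (h0 : SH w₀ ρ) (h1 : SH w₁ ρ) {s t : ℝ} (ht : t ∈ Icc (0:ℝ) 1) {z : ℂ}
    (hz : z ∈ Str ρ) : sg w₀ w₁ s (z + 1) t = sg w₀ w₁ s z t := by
  unfold sg
  rw [h0.per z hz t ht, h1.per z hz t ht]

theorem path0 (hS : S.Ok) {t : ℝ} (ht : t ∈ Icc (0:ℝ) 1) {z v : ℂ} (h : (z, v) ∈ S.Nb t S.r) :
    (z - t * v, v) ∈ S.Nb 0 S.R := by
  have h1 := hS.path t ht (z, v) h 1 ⟨zero_le_one, le_rfl⟩
  simpa using h1

theorem kp_cont (hS : S.Ok) (h0 : SH w₀ ρ) (h1 : SH w₁ ρ)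
    (hseg : ∀ s ∈ Icc (0:ℝ) 1, ∀ z ∈ Str ρ, ∀ t ∈ Icc (0:ℝ) 1, (z, sg w₀ w₁ s z t) ∈ S.Nb t S.r) :
    ContinuousOn (fun q : ℝ × ℂ × ℝ => kp S w₀ w₁ q.1 q.2.1 q.2.2)
      (Icc (0:ℝ) 1 ×ˢ (Str ρ ×ˢ Icc (0:ℝ) 1)) := by
  have e1 := sg_cont h0 h1
  have e2 : ContinuousOn (fun q : ℝ × ℂ × ℝ => q.2.1)
      (Icc (0:ℝ) 1 ×ˢ (Str ρ ×ˢ Icc (0:ℝ) 1)) := (continuous_fst.comp continuous_snd).continuousOn
  have e3 : ContinuousOn (fun q : ℝ × ℂ × ℝ => (q.2.2 : ℂ))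
      (Icc (0:ℝ) 1 ×ˢ (Str ρ ×ˢ Icc (0:ℝ) 1)) :=
    (Complex.continuous_ofReal.comp (continuous_snd.comp continuous_snd)).continuousOn
  have e4 : ContinuousOn (fun q : ℝ × ℂ × ℝ =>
      ((q.2.1 - q.2.2 * sg w₀ w₁ q.1 q.2.1 q.2.2, sg w₀ w₁ q.1 q.2.1 q.2.2) : ℂ × ℂ))
      (Icc (0:ℝ) 1 ×ˢ (Str ρ ×ˢ Icc (0:ℝ) 1)) := (e2.sub (e3.mul e1)).prodMk e1
  exact hS.κhol.continuousOn.comp e4
    (fun q hq => path0 hS hq.2.2 (hseg q.1 hq.1 q.2.1 hq.2.1 q.2.2 hq.2.2))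

theorem kp_hol (hS : S.Ok) (h0 : SH w₀ ρ) (h1 : SH w₁ ρ)
    (hseg : ∀ s ∈ Icc (0:ℝ) 1, ∀ z ∈ Str ρ, ∀ t ∈ Icc (0:ℝ) 1, (z, sg w₀ w₁ s z t) ∈ S.Nb t S.r)
    {s t : ℝ} (hs : s ∈ Icc (0:ℝ) 1) (ht : t ∈ Icc (0:ℝ) 1) :
    DifferentiableOn ℂ (fun z => kp S w₀ w₁ s z t) (Str ρ) := by
  have e1 := sg_hol h0 h1 (s := s) ht
  have e4 : DifferentiableOn ℂ (fun z : ℂ =>
      ((z - t * sg w₀ w₁ s z t, sg w₀ w₁ s z t) : ℂ × ℂ)) (Str ρ) :=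
    (differentiableOn_id.sub ((differentiableOn_const _).mul e1)).prodMk e1
  exact hS.κhol.comp e4 (fun z hz => path0 hS ht (hseg s hs z hz t ht))

theorem kp_per (hS : S.Ok) (h0 : SH w₀ ρ) (h1 : SH w₁ ρ)
    (hseg : ∀ s ∈ Icc (0:ℝ) 1, ∀ z ∈ Str ρ, ∀ t ∈ Icc (0:ℝ) 1, (z, sg w₀ w₁ s z t) ∈ S.Nb t S.r)
    {s t : ℝ} (hs : s ∈ Icc (0:ℝ) 1) (ht : t ∈ Icc (0:ℝ) 1) {z : ℂ} (hz : z ∈ Str ρ) :
    kp S w₀ w₁ s (z + 1) t = kp S w₀ w₁ s z t := by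
  unfold kp
  rw [sg_per h0 h1 ht hz]
  have h2 := hS.κper _ (path0 hS ht (hseg s hs z hz t ht))
  simp only at h2
  rw [← h2]
  congr 1
  ring

theorem chord (hS : S.Ok) {k0 M : ℝ} (hk0 : 0 < k0)
    (hMom : ∀ t ∈ Icc (0:ℝ) 1, ∀ z ∈ S.Nb t S.r,
      HasDerivAt (fun w => S.p t z.1 w) (S.κ (z.1 - t * z.2) z.2) z.2 ∧
      HasDerivAt (fun w => S.En t z.1 w) (z.2 * S.κ (z.1 - t * z.2) z.2) z.2 ∧
      k0 ≤ (S.κ (z.1 - t * z.2) z.2).re ∧ ‖S.κ (z.1 - t * z.2) z.2‖ ≤ M)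
    (h0 : SH w₀ ρ) (h1 : SH w₁ ρ)
    (hseg : ∀ s ∈ Icc (0:ℝ) 1, ∀ z ∈ Str ρ, ∀ t ∈ Icc (0:ℝ) 1, (z, sg w₀ w₁ s z t) ∈ S.Nb t S.r) :
    ∃ Wb : ℂ → ℝ → ℂ, SH Wb ρ ∧ ∀ z ∈ Str ρ, ∀ t ∈ Icc (0:ℝ) 1,
      S.En t z (w₁ z t) - S.En t z (w₀ z t)
        = Wb z t * (S.p t z (w₁ z t) - S.p t z (w₀ z t)) ∧
      ‖Wb z t - w₀ z t‖ ≤ M / k0 * ‖w₁ z t - w₀ z t‖ := by
  have hIoc : Set.uIoc (0:ℝ) 1 ⊆ Icc (0:ℝ) 1 := by
    rw [uIoc_of_le zero_le_one]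
    exact Ioc_subset_Icc_self
  have hIcc : Set.uIcc (0:ℝ) 1 = Icc (0:ℝ) 1 := uIcc_of_le zero_le_one
  have hkc := kp_cont hS h0 h1 hseg
  have hsc := sg_cont h0 h1
  have hK : SH (fun z t => ∫ s in (0:ℝ)..1, kp S w₀ w₁ s z t) ρ :=
    sh_pint hkc (fun s hs t ht => kp_hol hS h0 h1 hseg hs ht)
      (fun s hs z hz t ht => kp_per hS h0 h1 hseg hs ht hz)
  have hL : SH (fun z t => ∫ s in (0:ℝ)..1, sg w₀ w₁ s z t * kp S w₀ w₁ s z t) ρ :=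
    sh_pint (F := fun s z t => sg w₀ w₁ s z t * kp S w₀ w₁ s z t) (hsc.mul hkc)
      (fun s hs t ht => (sg_hol h0 h1 ht).mul (kp_hol hS h0 h1 hseg hs ht))
      (fun s hs z hz t ht => by
        simp only [sg_per h0 h1 ht hz, kp_per hS h0 h1 hseg hs ht hz])
  -- continuity in `s`
  have hpt : ∀ z ∈ Str ρ, ∀ t ∈ Icc (0:ℝ) 1,
      ContinuousOn (fun s => kp S w₀ w₁ s z t) (Icc (0:ℝ) 1) := by
    intro z hz t ht
    have e1 : ContinuousOn (fun s : ℝ => ((s, z, t) : ℝ × ℂ × ℝ)) (Icc (0:ℝ) 1) :=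
      (continuous_id.prodMk (continuous_const.prodMk continuous_const)).continuousOn
    exact hkc.comp e1 (fun s hs => ⟨hs, hz, ht⟩)
  have hst : ∀ z t, Continuous (fun s : ℝ => sg w₀ w₁ s z t) := by
    intro z t
    unfold sg
    fun_prop
  -- positivity
  have hre : ∀ z ∈ Str ρ, ∀ t ∈ Icc (0:ℝ) 1,
      k0 ≤ (∫ s in (0:ℝ)..1, kp S w₀ w₁ s z t).re := by
    intro z hz t ht
    have hint : IntervalIntegrable (fun s => kp S w₀ w₁ s z t) volume 0 1 :=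
      ContinuousOn.intervalIntegrable_of_Icc zero_le_one (hpt z hz t ht)
    have e1 : (∫ s in (0:ℝ)..1, kp S w₀ w₁ s z t).re
        = ∫ s in (0:ℝ)..1, (kp S w₀ w₁ s z t).re := by
      have := Complex.reCLM.intervalIntegral_comp_comm hint
      simpa using this.symm
    rw [e1]
    have e2 : ∫ s in (0:ℝ)..1, k0 = k0 := by simp
    calc k0 = ∫ s in (0:ℝ)..1, k0 := e2.symm
      _ ≤ ∫ s in (0:ℝ)..1, (kp S w₀ w₁ s z t).re := by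
        apply intervalIntegral.integral_mono_on zero_le_one intervalIntegrable_const
        · exact ContinuousOn.intervalIntegrable_of_Icc zero_le_one
            (Complex.continuous_re.comp_continuousOn (hpt z hz t ht))
        · intro s hs
          exact (hMom t ht _ (hseg s hs z hz t ht)).2.2.1
  have hne : ∀ z ∈ Str ρ, ∀ t ∈ Icc (0:ℝ) 1, (∫ s in (0:ℝ)..1, kp S w₀ w₁ s z t) ≠ 0 := by
    intro z hz t ht h
    have := hre z hz t ht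
    rw [h, Complex.zero_re] at this
    linarith
  have hnorm : ∀ z ∈ Str ρ, ∀ t ∈ Icc (0:ℝ) 1, k0 ≤ ‖∫ s in (0:ℝ)..1, kp S w₀ w₁ s z t‖ :=
    fun z hz t ht => (hre z hz t ht).trans (Complex.re_le_norm _)
  -- derivative along the segment
  have hseg' : ∀ z t, ∀ s : ℝ, HasDerivAt (fun s : ℝ => sg w₀ w₁ s z t) (w₁ z t - w₀ z t) s := by
    intro z t s
    have e1 : HasDerivAt (fun s : ℝ => (s : ℂ)) 1 s := Complex.ofRealCLM.hasDerivAt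
    have e2 := (e1.mul_const (w₁ z t - w₀ z t)).const_add (w₀ z t)
    simpa [sg] using e2
  have hp : ∀ z ∈ Str ρ, ∀ t ∈ Icc (0:ℝ) 1, S.p t z (w₁ z t) - S.p t z (w₀ z t)
      = (∫ s in (0:ℝ)..1, kp S w₀ w₁ s z t) * (w₁ z t - w₀ z t) := by
    intro z hz t ht
    have e1 : ∀ s ∈ Set.uIcc (0:ℝ) 1, HasDerivAt (fun s : ℝ => S.p t z (sg w₀ w₁ s z t))
        (kp S w₀ w₁ s z t * (w₁ z t - w₀ z t)) s := by
      intro s hs
      rw [hIcc] at hs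
      exact ((hMom t ht _ (hseg s hs z hz t ht)).1).comp s (hseg' z t s)
    have e2 := intervalIntegral.integral_eq_sub_of_hasDerivAt e1
      (ContinuousOn.intervalIntegrable_of_Icc zero_le_one
        ((hpt z hz t ht).mul continuousOn_const))
    rw [intervalIntegral.integral_mul_const] at e2
    rw [e2]
    simp [sg]
  have hE : ∀ z ∈ Str ρ, ∀ t ∈ Icc (0:ℝ) 1, S.En t z (w₁ z t) - S.En t z (w₀ z t)
      = (∫ s in (0:ℝ)..1, sg w₀ w₁ s z t * kp S w₀ w₁ s z t) * (w₁ z t - w₀ z t) := by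
    intro z hz t ht
    have e1 : ∀ s ∈ Set.uIcc (0:ℝ) 1, HasDerivAt (fun s : ℝ => S.En t z (sg w₀ w₁ s z t))
        (sg w₀ w₁ s z t * kp S w₀ w₁ s z t * (w₁ z t - w₀ z t)) s := by
      intro s hs
      rw [hIcc] at hs
      exact ((hMom t ht _ (hseg s hs z hz t ht)).2.1).comp s (hseg' z t s)
    have e2 := intervalIntegral.integral_eq_sub_of_hasDerivAt e1
      (ContinuousOn.intervalIntegrable_of_Icc zero_le_one
        (((hst z t).continuousOn.mul (hpt z hz t ht)).mul continuousOn_const))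
    rw [intervalIntegral.integral_mul_const] at e2
    rw [e2]
    simp [sg]
  refine ⟨fun z t => (∫ s in (0:ℝ)..1, sg w₀ w₁ s z t * kp S w₀ w₁ s z t)
    / (∫ s in (0:ℝ)..1, kp S w₀ w₁ s z t), ⟨?_, ?_, ?_⟩, ?_⟩
  · intro t ht
    exact (hL.hol t ht).div (hK.hol t ht) (fun z hz => hne z hz t ht)
  · exact hL.cont.div hK.cont (fun q hq => hne q.1 hq.1 q.2 hq.2)
  · intro z hz t ht
    have e1 := hL.per z hz t ht
    have e2 := hK.per z hz t ht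
    rw [e1, e2]
  · intro z hz t ht
    have hKne := hne z hz t ht
    constructor
    · rw [hp z hz t ht, hE z hz t ht]
      field_simp
    · have e1 : (∫ s in (0:ℝ)..1, sg w₀ w₁ s z t * kp S w₀ w₁ s z t)
          - w₀ z t * (∫ s in (0:ℝ)..1, kp S w₀ w₁ s z t)
          = ∫ s in (0:ℝ)..1, (sg w₀ w₁ s z t - w₀ z t) * kp S w₀ w₁ s z t := by
        rw [← intervalIntegral.integral_const_mul, ← intervalIntegral.integral_sub]
        · refine intervalIntegral.integral_congr (fun s _ => ?_)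
          ring
        · exact ContinuousOn.intervalIntegrable_of_Icc zero_le_one
            ((hst z t).continuousOn.mul (hpt z hz t ht))
        · exact ContinuousOn.intervalIntegrable_of_Icc zero_le_one
            (continuousOn_const.mul (hpt z hz t ht))
      have e2 : ‖∫ s in (0:ℝ)..1, (sg w₀ w₁ s z t - w₀ z t) * kp S w₀ w₁ s z t‖
          ≤ ‖w₁ z t - w₀ z t‖ * M := by
        have e3 := intervalIntegral.norm_integral_le_of_norm_le_const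
          (a := (0:ℝ)) (b := 1) (f := fun s => (sg w₀ w₁ s z t - w₀ z t) * kp S w₀ w₁ s z t)
          (C := ‖w₁ z t - w₀ z t‖ * M) (fun s hs => by
            have hs' := hIoc hs
            have e4 : sg w₀ w₁ s z t - w₀ z t = s * (w₁ z t - w₀ z t) := by
              unfold sg; ring
            rw [e4, norm_mul, norm_mul, Complex.norm_real, Real.norm_eq_abs,
              abs_of_nonneg hs'.1]
            have e5 := (hMom t ht _ (hseg s hs' z hz t ht)).2.2.2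
            have e6 : s * ‖w₁ z t - w₀ z t‖ ≤ ‖w₁ z t - w₀ z t‖ := by
              have := norm_nonneg (w₁ z t - w₀ z t)
              nlinarith [hs'.2]
            exact mul_le_mul e6 e5 (norm_nonneg _) (norm_nonneg _))
        simpa using e3
      have e7 : (∫ s in (0:ℝ)..1, sg w₀ w₁ s z t * kp S w₀ w₁ s z t)
          / (∫ s in (0:ℝ)..1, kp S w₀ w₁ s z t) - w₀ z t
          = (∫ s in (0:ℝ)..1, (sg w₀ w₁ s z t - w₀ z t) * kp S w₀ w₁ s z t)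
            / (∫ s in (0:ℝ)..1, kp S w₀ w₁ s z t) := by
        rw [← e1]
        field_simp
      rw [e7, norm_div]
      calc ‖∫ s in (0:ℝ)..1, (sg w₀ w₁ s z t - w₀ z t) * kp S w₀ w₁ s z t‖
            / ‖∫ s in (0:ℝ)..1, kp S w₀ w₁ s z t‖
          ≤ (‖w₁ z t - w₀ z t‖ * M) / k0 := by
            have hM : 0 ≤ ‖w₁ z t - w₀ z t‖ * M := (norm_nonneg _).trans e2
            exact div_le_div₀ hM e2 hk0 (hnorm z hz t ht)
        _ = M / k0 * ‖w₁ z t - w₀ z t‖ := by ring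

end chord

/-! ### Linear solutions -/

theorem lsol_mono {φ w g : ℂ → ℝ → ℂ} {e : ℂ} {τ ρ ρ' : ℝ} (h : LSol φ w g e τ ρ)
    (hr : ρ' ≤ ρ) : LSol φ w g e τ ρ' :=
  ⟨sh_mono h.sh hr, fun z hz => h.close z (str_mono hr hz),
    fun z hz t ht => h.eq z (str_mono hr hz) t ht⟩

theorem dz_sub {f g : ℂ → ℝ → ℂ} {ρ : ℝ} (hf : SH f ρ) (hg : SH g ρ) {z : ℂ} (hz : z ∈ Str ρ)
    {t : ℝ} (ht : t ∈ Icc (0:ℝ) 1) :
    dz (fun z t => f z t - g z t) z t = dz f z t - dz g z t := by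
  unfold dz
  exact deriv_fun_sub (diffAt hf hz ht) (diffAt hg hz ht)

theorem dz_cmul {f : ℂ → ℝ → ℂ} {ρ : ℝ} (hf : SH f ρ) (a : ℂ) {z : ℂ} (hz : z ∈ Str ρ)
    {t : ℝ} (ht : t ∈ Icc (0:ℝ) 1) : dz (fun z t => a * f z t) z t = a * dz f z t := by
  unfold dz
  exact deriv_const_mul a (diffAt hf hz ht)

/-- difference of two linear solutions with different velocity fields -/
theorem lsol_sub {φ ψ w v g g' : ℂ → ℝ → ℂ} {e e' : ℂ} {ρ : ℝ} (h : LSol φ w g e 1 ρ)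
    (h' : LSol ψ v g' e' 1 ρ) :
    LSol (fun z t => φ z t - ψ z t) w
      (fun z t => g z t - g' z t - (w z t - v z t) * dz ψ z t) (e - e') 1 ρ := by
  refine ⟨sh_sub h.sh h'.sh, fun z hz => ?_, fun z hz t ht => ?_⟩
  · simp only [h.close z hz, h'.close z hz]
  · have h1 := (h.eq z hz t ht).sub (h'.eq z hz t ht)
    have h2 : (g z t - w z t * dz φ z t - e) / ((1:ℝ) : ℂ)
        - (g' z t - v z t * dz ψ z t - e') / ((1:ℝ) : ℂ)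
        = (g z t - g' z t - (w z t - v z t) * dz ψ z t
          - w z t * dz (fun z t => φ z t - ψ z t) z t - (e - e')) / ((1:ℝ) : ℂ) := by
      rw [dz_sub h.sh h'.sh hz ht]
      push_cast
      ring
    rw [← h2]
    exact h1

/-- the divided difference of two solutions of the Hamilton-Jacobi equation -/
theorem lsol_quot {S : Sys} {W : ℝ → ℂ → ℂ → ℂ} {r₂ ρ : ℝ} {φ φ₀ Wb : ℂ → ℝ → ℂ}
    {e e₀ c c₀ : ℂ} (h : HSol S W r₂ φ e c ρ) (h₀ : HSol S W r₂ φ₀ e₀ c₀ ρ) (hc : c ≠ c₀)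
    (hW : ∀ z ∈ Str ρ, ∀ t ∈ Icc (0:ℝ) 1,
      Ef W t z (c + dz φ z t) - Ef W t z (c₀ + dz φ₀ z t)
        = Wb z t * ((c + dz φ z t) - (c₀ + dz φ₀ z t))) :
    LSol (fun z t => (c - c₀)⁻¹ * (φ z t - φ₀ z t)) Wb (fun z t => -Wb z t)
      (-((c - c₀)⁻¹ * (e - e₀))) 1 ρ ∧
    ∀ z ∈ Str ρ, ∀ t ∈ Icc (0:ℝ) 1,
      dz (fun z t => (c - c₀)⁻¹ * (φ z t - φ₀ z t)) z t
        = (c - c₀)⁻¹ * (dz φ z t - dz φ₀ z t) := by
  have hne : c - c₀ ≠ 0 := sub_ne_zero.2 hc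
  have hdz : ∀ z ∈ Str ρ, ∀ t ∈ Icc (0:ℝ) 1,
      dz (fun z t => (c - c₀)⁻¹ * (φ z t - φ₀ z t)) z t
        = (c - c₀)⁻¹ * (dz φ z t - dz φ₀ z t) := by
    intro z hz t ht
    rw [dz_cmul (sh_sub h.sh h₀.sh) _ hz ht, dz_sub h.sh h₀.sh hz ht]
  refine ⟨⟨sh_mul (sh_const _ _) (sh_sub h.sh h₀.sh), fun z hz => ?_, fun z hz t ht => ?_⟩, hdz⟩
  · simp only [h.close z hz, h₀.close z hz]
  · have h1 := ((h.eq z hz t ht).sub (h₀.eq z hz t ht)).const_mul (c - c₀)⁻¹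
    have h2 : (c - c₀)⁻¹ * ((e - Ef W t z (c + dz φ z t)) - (e₀ - Ef W t z (c₀ + dz φ₀ z t)))
        = (-Wb z t - Wb z t * dz (fun z t => (c - c₀)⁻¹ * (φ z t - φ₀ z t)) z t
          - -((c - c₀)⁻¹ * (e - e₀))) / ((1:ℝ) : ℂ) := by
      rw [hdz z hz t ht]
      have h3 : (e - Ef W t z (c + dz φ z t)) - (e₀ - Ef W t z (c₀ + dz φ₀ z t))
          = (e - e₀) - Wb z t * ((c - c₀) + (dz φ z t - dz φ₀ z t)) := by
        have := hW z hz t ht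
        linear_combination -this
      rw [h3]
      push_cast
      field_simp
      ring
    rw [← h2]
    exact h1

/-- stability of the linear problem -/
theorem lin_stab (hLin : GLin) (hUniq : GUniq) {μ M : ℝ} (hμ : 0 < μ) (hM : 0 < M) :
    ∃ C : ℝ, 0 < C ∧ ∀ (ρ δ G : ℝ), 0 < δ → δ < ρ → ρ ≤ 1 → 0 ≤ G →
      ∀ (w g φ : ℂ → ℝ → ℂ) (e : ℂ), SH w ρ → SH g ρ →
      (∀ z ∈ Str ρ, ∀ t ∈ Icc (0:ℝ) 1, μ ≤ (w z t).im ∧ ‖w z t‖ ≤ M ∧ ‖g z t‖ ≤ G) →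
      LSol φ w g e 1 ρ → ∀ x : ℝ, ∀ t ∈ Icc (0:ℝ) 1, ‖dz φ (x : ℂ) t‖ ≤ C * G / δ ^ 2 := by
  obtain ⟨C, hC, hL⟩ := hLin μ M hμ hM
  refine ⟨C, hC, ?_⟩
  intro ρ δ G hδ hδρ hρ hG w g φ e hw hg hb hφ x t ht
  obtain ⟨ψ, e', hψ, -, hψb⟩ := hL ρ δ 1 G hδ hδρ hρ le_rfl hG w g hw hg hb
  have hpos : 0 < ρ - δ := by linarith
  have hx : (x : ℂ) ∈ Str (ρ - δ) := by
    show |(x : ℂ).im| < ρ - δ
    simpa using hpos
  have h1 : LSol φ w g e 1 (ρ - δ) := lsol_mono hφ (by linarith)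
  have h2 := lsol_sub h1 hψ
  have h3 : LSol (fun z t => φ z t - ψ z t) w (fun _ _ => 0) (e - e') 1 (ρ - δ) := by
    refine ⟨h2.sh, h2.close, fun z hz t ht => ?_⟩
    have h4 := h2.eq z hz t ht
    simpa using h4
  have h5 := (hUniq (ρ - δ) 1 hpos one_pos w _ _ (sh_mono hw (by linarith)) (fun x t ht => by
    have hx' : (x : ℂ) ∈ Str ρ := by
      show |(x : ℂ).im| < ρ
      simpa using hδ.trans hδρ
    exact hμ.trans_le (hb x hx' t ht).1) h3).2 x t ht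
  rw [dz_sub h1.sh hψ.sh hx ht, sub_eq_zero] at h5
  rw [h5]
  exact (hψb x hx t ht).1

/-! ### Continuity on the real line -/

theorem cont_real {S : Sys} {δ h : ℝ} {O : Set ℂ} {w : ℂ → ℂ → ℝ → ℂ} {c₀ : ℂ}
    (hU : ∀ (ρ ρ' : ℝ) (w w' : ℂ → ℝ → ℂ) (c : ℂ), Tor S δ w ρ c → Tor S δ w' ρ' c →
      ∀ x : ℝ, ∀ t ∈ Icc (0:ℝ) 1, w (x : ℂ) t = w' (x : ℂ) t)
    (hC : ∀ (ρ : ℕ → ℝ) (w : ℕ → ℂ → ℝ → ℂ) (c : ℕ → ℂ) (c' : ℂ),
      (∀ k, Tor S δ (w k) (ρ k) (c k)) →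
      (∀ k, ∀ x : ℝ, ∀ t ∈ Icc (0:ℝ) 1, h ≤ (w k (x : ℂ) t).im) → Tendsto c atTop (𝓝 c') →
      ∃ (w' : ℂ → ℝ → ℂ) (ρ' : ℝ) (φ : ℕ → ℕ), StrictMono φ ∧ Tor S δ w' ρ' c' ∧
        TendstoUniformlyOn (fun k (z : ℝ × ℝ) => w (φ k) (z.1 : ℂ) z.2)
          (fun z : ℝ × ℝ => w' (z.1 : ℂ) z.2) atTop (univ ×ˢ Icc (0:ℝ) 1))
    (hO : IsOpen O) (hT : ∀ c ∈ O, ∃ ρ : ℝ, Tor S δ (w c) ρ c) (hc₀ : c₀ ∈ O)
    (hlow : ∀ᶠ c in 𝓝 c₀, ∀ x : ℝ, ∀ t ∈ Icc (0:ℝ) 1, h ≤ (w c (x : ℂ) t).im) {η : ℝ}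
    (hη : 0 < η) :
    ∀ᶠ c in 𝓝 c₀, ∀ x : ℝ, ∀ t ∈ Icc (0:ℝ) 1, ‖w c (x : ℂ) t - w c₀ (x : ℂ) t‖ ≤ η := by
  by_contra hcon
  rw [not_eventually] at hcon
  have h0 : ∀ᶠ c in 𝓝 c₀, c ∈ O := hO.mem_nhds hc₀
  have h1 := hcon.and_eventually (h0.and hlow)
  obtain ⟨ns, hns, hprop⟩ := exists_seq_forall_of_frequently h1
  choose ρ hρ using fun k => hT (ns k) (hprop k).2.1
  obtain ⟨w', ρ', φ, hφ, hT', hunif⟩ :=
    hC ρ (fun k => w (ns k)) ns c₀ hρ (fun k => (hprop k).2.2) hns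
  obtain ⟨ρ₀, hT₀⟩ := hT c₀ hc₀
  have hww := hU ρ' ρ₀ w' (w c₀) c₀ hT' hT₀
  obtain ⟨k, hk⟩ := ((Metric.tendstoUniformlyOn_iff.1 hunif) η hη).exists
  apply (hprop (φ k)).1
  intro x t ht
  have h2 := hk (x, t) ⟨mem_univ _, ht⟩
  simp only [dist_eq_norm] at h2
  rw [hww x t ht] at h2
  rw [norm_sub_rev]
  exact h2.le

/-! ### The main theorem -/

theorem ft_holo : GReg → GMom → GTorP → GW → GE → GShrink → GToPhi → GUniqT → GStrip → GComp →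
    GTL → GLin → GUniq → GHolo := by
  intro hReg hMom hTorP hGW hGE hShrink hToPhi hUniqT hStrip hComp hTL hLin hUniq S hS
  obtain ⟨W, r₂, r₃, MW, kW, hWF⟩ := hGW S hS
  obtain ⟨d1, hd1, hU⟩ := hUniqT S hS
  obtain ⟨d2, a, k, hd2, ha, hk, hSt⟩ := hStrip S hS
  obtain ⟨d3, hd3, hC⟩ := hComp S hS
  obtain ⟨M0, hM0, hbd⟩ := Pool.Agent.Helper52.FT.tor_bound hS hReg
  obtain ⟨k0, MM, hk0, hMM, -, -, hMo⟩ := hMom S hS
  obtain ⟨-, -, hEf⟩ := hGE S hS W r₂ r₃ MW kW hWF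
  have hr3 := hWF.h3
  refine ⟨min (min d1 d2) (min d3 (r₃ / 2)),
    lt_min (lt_min hd1 hd2) (lt_min hd3 (by linarith)), ?_⟩
  intro δ O w hδ hO hT hlow x₀ c₀ hc₀
  have hδ1 : δ ≤ d1 := hδ.trans ((min_le_left _ _).trans (min_le_left _ _))
  have hδ2 : δ ≤ d2 := hδ.trans ((min_le_left _ _).trans (min_le_right _ _))
  have hδ3 : δ ≤ d3 := hδ.trans ((min_le_right _ _).trans (min_le_left _ _))
  have hδ4 : δ ≤ r₃ / 2 := hδ.trans ((min_le_right _ _).trans (min_le_right _ _))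
  have ht0 : (0:ℝ) ∈ Icc (0:ℝ) 1 := ⟨le_rfl, zero_le_one⟩
  obtain ⟨h', hh', hlow'⟩ := hlow c₀ hc₀
  obtain ⟨h, hh, hh1, hhh'⟩ : ∃ h : ℝ, 0 < h ∧ h ≤ 1 ∧ h ≤ h' :=
    ⟨min h' 1, lt_min hh' one_pos, min_le_right _ _, min_le_left _ _⟩
  have hlow1 : ∀ᶠ c in 𝓝 c₀, ∀ x : ℝ, ∀ t ∈ Icc (0:ℝ) 1, h ≤ (w c (x : ℂ) t).im := by
    filter_upwards [hlow'] with c hc x t ht
    exact hhh'.trans (hc x t ht)
  have hOe : ∀ᶠ c in 𝓝 c₀, c ∈ O := hO.mem_nhds hc₀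
  have hgood : ∀ᶠ c in 𝓝 c₀, c ∈ O ∧ ∀ x : ℝ, ∀ t ∈ Icc (0:ℝ) 1, h ≤ (w c (x : ℂ) t).im :=
    hOe.and hlow1
  -- tori on a fixed strip
  have hvex : ∀ c : ℂ, ∃ v : ℂ → ℝ → ℂ, (c ∈ O ∧ ∀ x : ℝ, ∀ t ∈ Icc (0:ℝ) 1,
      h ≤ (w c (x : ℂ) t).im) → Tor S δ v (a * h ^ k) c ∧
        ∀ x : ℝ, ∀ t ∈ Icc (0:ℝ) 1, v (x : ℂ) t = w c (x : ℂ) t := by
    intro c
    by_cases hc : c ∈ O ∧ ∀ x : ℝ, ∀ t ∈ Icc (0:ℝ) 1, h ≤ (w c (x : ℂ) t).im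
    · obtain ⟨ρ, hρ⟩ := hT c hc.1
      obtain ⟨v, hv⟩ := hSt δ ρ (w c) c hδ2 hρ h hh hh1 hc.2
      exact ⟨v, fun _ => hv⟩
    · exact ⟨fun _ _ => 0, fun h => absurd h hc⟩
  choose v hv using hvex
  obtain ⟨R1, hR1, hR11, hR1a⟩ : ∃ R1 : ℝ, 0 < R1 ∧ R1 ≤ 1 ∧ R1 ≤ a * h ^ k :=
    ⟨min (a * h ^ k) 1, lt_min (by positivity) one_pos, min_le_right _ _, min_le_left _ _⟩
  have hc₀g : c₀ ∈ O ∧ ∀ x : ℝ, ∀ t ∈ Icc (0:ℝ) 1, h ≤ (w c₀ (x : ℂ) t).im :=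
    hgood.self_of_nhds
  have hsh : ∀ {ρ ρ' : ℝ} {u : ℂ → ℝ → ℂ} {c : ℂ}, Tor S δ u ρ c → 0 < ρ' → ρ' ≤ ρ →
      Tor S δ u ρ' c := by
    intro ρ ρ' u c hu h1 h2
    exact (hShrink S hS (3 * r₃ / 4) δ ρ u c (by linarith) hu).1 ρ' h1 h2
  have hvT : ∀ c : ℂ, (c ∈ O ∧ ∀ x : ℝ, ∀ t ∈ Icc (0:ℝ) 1, h ≤ (w c (x : ℂ) t).im) →
      Tor S δ (v c) R1 c := fun c hc => hsh (hv c hc).1 hR1 hR1a
  -- continuity
  have hcr : ∀ η : ℝ, 0 < η → ∀ᶠ c in 𝓝 c₀, ∀ x : ℝ, ∀ t ∈ Icc (0:ℝ) 1,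
      ‖w c (x : ℂ) t - w c₀ (x : ℂ) t‖ ≤ η := by
    intro η hη
    refine cont_real (S := S) (δ := δ) (h := h) (O := O) ?_ ?_ hO hT hc₀ hlow1 hη
    · intro ρ ρ' w w' c h1 h2
      exact hU δ ρ ρ' w w' c hδ1 h1 h2
    · intro ρ w c c' h1 h2 h3
      obtain ⟨w', ρ', φ, g1, g2, g3, -⟩ := hC δ h ρ w c c' hδ3 hh h1 h2 h3
      exact ⟨w', ρ', φ, g1, g2, g3⟩
  have hcs : ∀ η : ℝ, 0 < η → ∀ᶠ c in 𝓝 c₀, ∀ z ∈ Str (R1 / 2), ∀ t ∈ Icc (0:ℝ) 1,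
      ‖v c z t - v c₀ z t‖ ≤ η := by
    intro η hη
    obtain ⟨η', hη', hTL'⟩ := hTL R1 (R1 / 2) (2 * M0) η (by linarith) (by linarith)
      (by linarith) hη
    filter_upwards [hcr η' hη', hgood] with c hc hcg z hz t ht
    refine hTL' (fun z => v c z t - v c₀ z t)
      (((hvT c hcg).sh.hol t ht).sub ((hvT c₀ hc₀g).sh.hol t ht)) ?_ ?_ z hz
    · intro y hy
      have e1 := hbd δ R1 (v c) c (hvT c hcg) y hy t ht
      have e2 := hbd δ R1 (v c₀) c₀ (hvT c₀ hc₀g) y hy t ht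
      calc ‖v c y t - v c₀ y t‖ ≤ ‖v c y t‖ + ‖v c₀ y t‖ := norm_sub_le _ _
        _ ≤ 2 * M0 := by linarith
    · intro x
      rw [(hv c hcg).2 x t ht, (hv c₀ hc₀g).2 x t ht]
      exact hc x t ht
  -- margins
  obtain ⟨R3, hR3, hR3', hnb⟩ := (hShrink S hS (3 * r₃ / 4) δ (R1 / 2) (v c₀) c₀ (by linarith)
    (hsh (hvT c₀ hc₀g) (by linarith) (by linarith))).2
  obtain ⟨R4, hR4, hR43, hR4l⟩ : ∃ R4 : ℝ, 0 < R4 ∧ R4 ≤ R3 ∧ M0 / (R1 / 4) * R4 ≤ h / 2 := by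
    refine ⟨min R3 (h / 2 / (M0 / (R1 / 4))), lt_min hR3 (by positivity), min_le_left _ _, ?_⟩
    calc M0 / (R1 / 4) * min R3 (h / 2 / (M0 / (R1 / 4)))
        ≤ M0 / (R1 / 4) * (h / 2 / (M0 / (R1 / 4))) := by
          gcongr
          exact min_le_right _ _
      _ = h / 2 := by field_simp
  have hR42 : R4 ≤ R1 / 2 := hR43.trans hR3'
  have him : ∀ z ∈ Str R4, ∀ t ∈ Icc (0:ℝ) 1, h / 2 ≤ (v c₀ z t).im := by
    intro z hz t ht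
    have hz2 : z ∈ Str (R1 / 2) := str_mono hR42 hz
    have hx2 : (z.re : ℂ) ∈ Str (R1 / 2) := by
      show |((z.re : ℝ) : ℂ).im| < R1 / 2
      simpa using hR1
    have e1 := Pool.Agent.Helper52.FT.tor_lip hS hTorP hM0 (hvT c₀ hc₀g)
      (fun z hz t ht => hbd δ R1 (v c₀) c₀ (hvT c₀ hc₀g) z hz t ht) hz2 hx2 ht ht
    have e2 : ‖z - (z.re : ℂ)‖ ≤ R4 := by
      have e3 : z - (z.re : ℂ) = (z.im : ℂ) * I := by
        apply Complex.ext <;> simp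
      rw [e3, norm_mul, Complex.norm_I, mul_one, Complex.norm_real, Real.norm_eq_abs]
      exact le_of_lt hz
    have e4 : ‖v c₀ z t - v c₀ (z.re : ℂ) t‖ ≤ h / 2 := by
      calc ‖v c₀ z t - v c₀ (z.re : ℂ) t‖
          ≤ M0 / (R1 / 4) * ‖z - (z.re : ℂ)‖ + M0 * (M0 / (R1 / 4)) * |t - t| := e1
        _ = M0 / (R1 / 4) * ‖z - (z.re : ℂ)‖ := by simp
        _ ≤ M0 / (R1 / 4) * R4 := by gcongr
        _ ≤ h / 2 := hR4l
    have e5 : h ≤ (v c₀ (z.re : ℂ) t).im := by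
      rw [(hv c₀ hc₀g).2 z.re t ht]
      exact hc₀g.2 z.re t ht
    have e6 := (Complex.abs_im_le_norm (v c₀ z t - v c₀ (z.re : ℂ) t)).trans e4
    rw [Complex.sub_im, abs_le] at e6
    linarith [e6.1]
  have hR41 : R4 ≤ 1 := by linarith
  -- segments
  have hsg : ∀ c : ℂ, (∀ z ∈ Str (R1 / 2), ∀ t ∈ Icc (0:ℝ) 1, ‖v c z t - v c₀ z t‖ ≤ r₃ / 8) →
      ∀ s ∈ Icc (0:ℝ) 1, ∀ z ∈ Str R4, ∀ t ∈ Icc (0:ℝ) 1,
        (z, sg (v c₀) (v c) s z t) ∈ S.Nb t r₃ := by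
    intro c hc s hs z hz t ht
    obtain ⟨y, hy, hy1, hy2⟩ := hnb z (str_mono hR43 hz) t ht
    refine ⟨y, hy, ?_, ?_⟩
    · simp only at hy1 ⊢
      linarith
    · simp only at hy2 ⊢
      have e1 := hc z (str_mono hR42 hz) t ht
      have e2 : sg (v c₀) (v c) s z t - (y.2 : ℂ)
          = (v c₀ z t - (y.2 : ℂ)) + s * (v c z t - v c₀ z t) := by
        unfold sg; ring
      rw [e2]
      have e3 : ‖(s : ℂ) * (v c z t - v c₀ z t)‖ ≤ r₃ / 8 := by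
        rw [norm_mul, Complex.norm_real, Real.norm_eq_abs, abs_of_nonneg hs.1]
        have := norm_nonneg (v c z t - v c₀ z t)
        nlinarith [hs.2, hs.1]
      have e4 := norm_add_le (v c₀ z t - (y.2 : ℂ)) (s * (v c z t - v c₀ z t))
      linarith
  have hmono : ∀ {t : ℝ} {y : ℂ × ℂ}, y ∈ S.Nb t r₃ → y ∈ S.Nb t S.r := by
    rintro t y ⟨y', hy', h1, h2⟩
    exact ⟨y', hy', h1.trans_le hWF.h3', h2.trans_le hWF.h3'⟩
  have hsg1 : ∀ c z t, sg (v c₀) (v c) 1 z t = v c z t := by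
    intro c z t
    unfold sg
    push_cast
    ring
  -- solutions of the Hamilton-Jacobi equation
  have hphi : ∀ c : ℂ, (c ∈ O ∧ ∀ x : ℝ, ∀ t ∈ Icc (0:ℝ) 1, h ≤ (w c (x : ℂ) t).im) →
      (∀ z ∈ Str (R1 / 2), ∀ t ∈ Icc (0:ℝ) 1, ‖v c z t - v c₀ z t‖ ≤ r₃ / 8) →
      ∃ (φ : ℂ → ℝ → ℂ) (e : ℂ), HSol S W r₂ φ e c R4 ∧
        (∀ z ∈ Str R4, ∀ t ∈ Icc (0:ℝ) 1, c + dz φ z t = S.p t z (v c z t)) ∧
        (∀ z ∈ Str R4, ∀ t ∈ Icc (0:ℝ) 1, Ef W t z (c + dz φ z t) = S.En t z (v c z t)) := by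
    intro c hcg hc
    have hnbc : ∀ z ∈ Str R4, ∀ t ∈ Icc (0:ℝ) 1, (z, v c z t) ∈ S.Nb t r₃ := by
      intro z hz t ht
      have := hsg c hc 1 ⟨zero_le_one, le_rfl⟩ z hz t ht
      rwa [hsg1] at this
    obtain ⟨φ, e, h1, h2⟩ := hToPhi S hS W r₂ r₃ MW kW hWF δ R4 (v c) c
      (hsh (hvT c hcg) hR4 (by linarith)) hnbc
    refine ⟨φ, e, h1, fun z hz t ht => (h2 z hz t ht).1, fun z hz t ht => ?_⟩
    rw [(h2 z hz t ht).1]
    exact (hEf t ht).2.2 _ (hnbc z hz t ht)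
  obtain ⟨φ₀, e₀, hφ₀, hP₀, hE₀⟩ := hphi c₀ hc₀g (fun z hz t ht => by
    rw [sub_self, norm_zero]; linarith)
  -- the derivative
  obtain ⟨CL, hCL, hLin'⟩ := hLin (h / 4) (M0 + 1) (by linarith) (by linarith)
  have hv0sh : SH (v c₀) R4 := sh_mono (hvT c₀ hc₀g).sh (by linarith)
  obtain ⟨D0, eD, hD0, -, hD0b⟩ := hLin' R4 (R4 / 4) 1 (M0 + 1) (by linarith) (by linarith)
    hR41 le_rfl (by linarith) (v c₀) (fun z t => -v c₀ z t) hv0sh (sh_neg hv0sh) (by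
      intro z hz t ht
      have e1 := hbd δ R1 (v c₀) c₀ (hvT c₀ hc₀g) z (str_mono (by linarith) hz) t ht
      have e2 := him z hz t ht
      refine ⟨by linarith, by linarith, ?_⟩
      rw [norm_neg]
      linarith)
  obtain ⟨C1, hC1, hC1b⟩ : ∃ C1 : ℝ, 0 ≤ C1 ∧ ∀ z ∈ Str (R4 - R4 / 4), ∀ t ∈ Icc (0:ℝ) 1,
      ‖dz D0 z t‖ ≤ C1 :=
    ⟨CL * (M0 + 1) / (R4 / 4) ^ 2, by positivity, fun z hz t ht => (hD0b z hz t ht).1⟩
  obtain ⟨R5, hR5e⟩ : ∃ R5 : ℝ, R5 = R4 - R4 / 4 := ⟨_, rfl⟩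
  rw [← hR5e] at hD0 hC1b
  have hR5 : 0 < R5 := by rw [hR5e]; linarith
  have hR54 : R5 ≤ R4 := by rw [hR5e]; linarith
  obtain ⟨C2, hC2, hstab⟩ := lin_stab hLin hUniq (μ := h / 4) (M := M0 + 1) (by linarith)
    (by linarith)
  obtain ⟨K, hK, hKM⟩ : ∃ K : ℝ, 0 < K ∧ MM / k0 ≤ K := ⟨MM / k0, by positivity, le_rfl⟩
  have hx5 : (x₀ : ℂ) ∈ Str R5 := by
    show |(x₀ : ℂ).im| < R5
    simpa using hR5
  have hx4 : (x₀ : ℂ) ∈ Str R4 := str_mono hR54 hx5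
  have hder : HasDerivAt (fun c => S.p 0 (x₀ : ℂ) (w c (x₀ : ℂ) 0)) (1 + dz D0 (x₀ : ℂ) 0) c₀ := by
    rw [hasDerivAt_iff_tendsto_slope, Metric.tendsto_nhds]
    intro ε hε
    obtain ⟨η, hη, hη1, hη2, hη3, hη4⟩ : ∃ η : ℝ, 0 < η ∧ η ≤ r₃ / 8 ∧ K * η ≤ h / 4 ∧
        K * η ≤ 1 ∧ C2 * (K * η * (1 + C1)) / (R5 / 2) ^ 2 ≤ ε / 2 := by
      refine ⟨min (r₃ / 8) (min (h / 4 / K) (min (1 / K)
        (ε / 2 * (R5 / 2) ^ 2 / (C2 * K * (1 + C1))))), ?_, min_le_left _ _, ?_, ?_, ?_⟩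
      · refine lt_min (by linarith) (lt_min (by positivity) (lt_min (by positivity) ?_))
        positivity
      · calc K * _ ≤ K * (h / 4 / K) := by
              gcongr
              exact (min_le_right _ _).trans (min_le_left _ _)
          _ = h / 4 := by field_simp
      · calc K * _ ≤ K * (1 / K) := by
              gcongr
              exact (min_le_right _ _).trans ((min_le_right _ _).trans (min_le_left _ _))
          _ = 1 := by field_simp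
      · calc C2 * (K * min (r₃ / 8) (min (h / 4 / K) (min (1 / K)
                (ε / 2 * (R5 / 2) ^ 2 / (C2 * K * (1 + C1))))) * (1 + C1)) / (R5 / 2) ^ 2
            ≤ C2 * (K * (ε / 2 * (R5 / 2) ^ 2 / (C2 * K * (1 + C1))) * (1 + C1))
                / (R5 / 2) ^ 2 := by
              gcongr
              exact (min_le_right _ _).trans ((min_le_right _ _).trans (min_le_right _ _))
          _ = ε / 2 := by
              have : (1 + C1) ≠ 0 := by positivity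
              field_simp
    have hev : ∀ᶠ c in 𝓝[≠] c₀, (c ∈ O ∧ ∀ x : ℝ, ∀ t ∈ Icc (0:ℝ) 1, h ≤ (w c (x : ℂ) t).im) ∧
        (∀ z ∈ Str (R1 / 2), ∀ t ∈ Icc (0:ℝ) 1, ‖v c z t - v c₀ z t‖ ≤ η) ∧ c ≠ c₀ := by
      filter_upwards [mem_nhdsWithin_of_mem_nhds hgood, mem_nhdsWithin_of_mem_nhds (hcs η hη),
        self_mem_nhdsWithin] with c h1 h2 h3
      exact ⟨h1, h2, h3⟩
    filter_upwards [hev] with c hc
    obtain ⟨hcg, hcη, hcne⟩ := hc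
    have hc8 : ∀ z ∈ Str (R1 / 2), ∀ t ∈ Icc (0:ℝ) 1, ‖v c z t - v c₀ z t‖ ≤ r₃ / 8 :=
      fun z hz t ht => (hcη z hz t ht).trans hη1
    obtain ⟨φ, e, hφ, hP, hE⟩ := hphi c hcg hc8
    have hvcsh : SH (v c) R4 := sh_mono (hvT c hcg).sh (by linarith)
    obtain ⟨Wb, hWsh, hWb⟩ := chord hS hk0 (M := MM) (fun t ht z hz => by
        obtain ⟨-, -, h3⟩ := hMo t ht
        obtain ⟨g1, g2, -, g4, g5, -⟩ := h3 z hz
        exact ⟨g1, g2, g4, g5⟩) hv0sh hvcsh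
      (fun s hs z hz t ht => hmono (hsg c hc8 s hs z hz t ht))
    have hWn : ∀ z ∈ Str R4, ∀ t ∈ Icc (0:ℝ) 1, ‖Wb z t - v c₀ z t‖ ≤ K * η := by
      intro z hz t ht
      calc ‖Wb z t - v c₀ z t‖ ≤ MM / k0 * ‖v c z t - v c₀ z t‖ := (hWb z hz t ht).2
        _ ≤ K * η := by
          gcongr
          exact hcη z (str_mono hR42 hz) t ht
    obtain ⟨hD, hDz⟩ := lsol_quot hφ hφ₀ hcne (Wb := Wb) (fun z hz t ht => by
      rw [hE z hz t ht, hE₀ z hz t ht, hP z hz t ht, hP₀ z hz t ht]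
      exact (hWb z hz t ht).1) 
    have hΔ := lsol_sub (lsol_mono hD hR54) hD0
    have hWsh5 : SH Wb R5 := sh_mono hWsh hR54
    have hv05 : SH (v c₀) R5 := sh_mono hv0sh hR54
    have hg'sh : SH (fun z t => -Wb z t - -v c₀ z t - (Wb z t - v c₀ z t) * dz D0 z t) R5 :=
      sh_sub (sh_sub (sh_neg hWsh5) (sh_neg hv05)) (sh_mul (sh_sub hWsh5 hv05) (sh_dz hD0.sh))
    have hfin := hstab R5 (R5 / 2) (K * η * (1 + C1)) (by linarith) (by linarith) (by linarith)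
      (by positivity) Wb _ _ _ hWsh5 hg'sh (by
        intro z hz t ht
        have hz4 := str_mono hR54 hz
        have e1 := hWn z hz4 t ht
        have e2 := him z hz4 t ht
        have e3 := hbd δ R1 (v c₀) c₀ (hvT c₀ hc₀g) z (str_mono (by linarith) hz) t ht
        refine ⟨?_, ?_, ?_⟩
        · have e4 := (Complex.abs_im_le_norm (Wb z t - v c₀ z t)).trans e1
          rw [Complex.sub_im, abs_le] at e4
          linarith [e4.1]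
        · have e5 : ‖Wb z t‖ ≤ ‖Wb z t - v c₀ z t‖ + ‖v c₀ z t‖ := by
            simpa using norm_add_le (Wb z t - v c₀ z t) (v c₀ z t)
          linarith
        · have e6 : -Wb z t - -v c₀ z t - (Wb z t - v c₀ z t) * dz D0 z t
              = -((Wb z t - v c₀ z t) * (1 + dz D0 z t)) := by ring
          rw [e6, norm_neg, norm_mul]
          have e7 : ‖1 + dz D0 z t‖ ≤ 1 + C1 := by
            calc ‖1 + dz D0 z t‖ ≤ ‖(1:ℂ)‖ + ‖dz D0 z t‖ := norm_add_le _ _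
              _ ≤ 1 + C1 := by
                rw [norm_one]
                have := hC1b z hz t ht
                linarith
          exact mul_le_mul e1 e7 (norm_nonneg _) (by positivity)) hΔ x₀ 0 ht0
    rw [dz_sub (sh_mono hD.sh hR54) hD0.sh hx5 ht0, hDz _ hx4 0 ht0] at hfin
    have hval : ∀ c' : ℂ, (c' ∈ O ∧ ∀ x : ℝ, ∀ t ∈ Icc (0:ℝ) 1, h ≤ (w c' (x : ℂ) t).im) →
        S.p 0 (x₀ : ℂ) (w c' (x₀ : ℂ) 0) = S.p 0 (x₀ : ℂ) (v c' (x₀ : ℂ) 0) := by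
      intro c' hc'
      rw [(hv c' hc').2 x₀ 0 ht0]
    have hslope : slope (fun c => S.p 0 (x₀ : ℂ) (w c (x₀ : ℂ) 0)) c₀ c
        = 1 + (c - c₀)⁻¹ * (dz φ (x₀ : ℂ) 0 - dz φ₀ (x₀ : ℂ) 0) := by
      have hne : c - c₀ ≠ 0 := sub_ne_zero.2 hcne
      rw [slope_def_module, smul_eq_mul]
      rw [hval c hcg, hval c₀ hc₀g, ← hP _ hx4 0 ht0, ← hP₀ _ hx4 0 ht0]
      field_simp
      ring
    rw [hslope, dist_eq_norm]
    have e8 : 1 + (c - c₀)⁻¹ * (dz φ (x₀ : ℂ) 0 - dz φ₀ (x₀ : ℂ) 0) - (1 + dz D0 (x₀ : ℂ) 0)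
        = (c - c₀)⁻¹ * (dz φ (x₀ : ℂ) 0 - dz φ₀ (x₀ : ℂ) 0) - dz D0 (x₀ : ℂ) 0 := by ring
    rw [e8]
    calc _ ≤ C2 * (K * η * (1 + C1)) / (R5 / 2) ^ 2 := hfin
      _ ≤ ε / 2 := hη4
      _ < ε := by linarith
  exact hder.differentiableAt.differentiableWithinAt

end Pool.Agent.Helper3.FT
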